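import Pool.Agent.Helper55.SCH.Goals

set_option autoImplicit false

/-!
# Packet SCH-CR1: simplification of critical points for `u ≤ c`
-/

namespace Pool.Agent.Helper91.SCH

open Finset Pool.Agent.Helper55.SCH

theorem S_zero (s : ℕ → ℝ) : S s 0 = 0 := by simp [S]

theorem S_succ (s : ℕ → ℝ) (k : ℕ) : S s (k + 1) = S s k + s (k + 1) := by
  unfold S
  rw [Finset.sum_Icc_succ_top (by omega)]

theorem S_neg (s : ℕ → ℝ) (k : ℕ) : S (fun x => - s x) k = - S s k := by
  simp [S, Finset.sum_neg_distrib]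

theorem S_ge {u : ℕ} {r : ℕ → ℝ} (r0 : ∀ v, v ∉ Icc 1 u → r v = 0) {k : ℕ} (hk : u ≤ k) :
    S r k = S r u := by
  induction k, hk using Nat.le_induction with
  | base => rfl
  | succ k hk ih =>
    rw [S_succ, ih, r0 (k + 1) (by simp; omega), add_zero]

theorem S_refl {u : ℕ} {r : ℕ → ℝ} (r0 : ∀ v, v ∉ Icc 1 u → r v = 0)
    (rs : ∀ v ∈ Icc 1 u, r (u + 1 - v) = r v) (x : ℕ) : S r (u - x) = S r u - S r x := by
  induction x with
  | zero => simp [S_zero]
  | succ x ih =>
    by_cases hx : x + 1 ≤ u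
    · have e1 : u - x = (u - (x + 1)) + 1 := by omega
      rw [e1, S_succ] at ih
      have e2 : u - (x + 1) + 1 = u + 1 - (x + 1) := by omega
      have e3 := rs (x + 1) (by simp; omega)
      rw [e2, e3] at ih
      rw [S_succ]
      linarith
    · have e1 : u - (x + 1) = 0 := by omega
      rw [e1, S_zero, S_ge r0 (by omega : u ≤ x + 1), sub_self]

theorem exchange (s r : ℕ → ℝ) (c : ℕ) :
    ∑ x ∈ Icc 1 c, s x * (S r c - S r x) = ∑ v ∈ Icc 1 c, r v * S s (v - 1) := by
  induction c with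
  | zero => simp
  | succ c ih =>
    rw [Finset.sum_Icc_succ_top (by omega), Finset.sum_Icc_succ_top (by omega), ← ih, sub_self,
      mul_zero, add_zero, S_succ r c]
    have h : ∑ x ∈ Icc 1 c, s x * (S r c + r (c + 1) - S r x) =
        ∑ x ∈ Icc 1 c, (s x * (S r c - S r x) + r (c + 1) * s x) :=
      Finset.sum_congr rfl (fun x _ => by ring)
    rw [h, Finset.sum_add_distrib, ← Finset.mul_sum]
    simp [S]

theorem exchange' {c u : ℕ} {s r : ℕ → ℝ} (huc : u ≤ c) (r0 : ∀ v, v ∉ Icc 1 u → r v = 0) :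
    ∑ v ∈ Icc 1 u, r v * S s (v - 1) = ∑ x ∈ Icc 1 c, s x * (S r u - S r x) := by
  rw [← S_ge r0 huc, exchange]
  refine Finset.sum_subset (Finset.Icc_subset_Icc le_rfl huc) ?_
  intro v _ hv
  rw [r0 v hv, zero_mul]

theorem exchange'' {u : ℕ} {s r : ℕ → ℝ} (rs : ∀ v ∈ Icc 1 u, r (u + 1 - v) = r v) :
    ∑ v ∈ Icc 1 u, r v * S s (u - v) = ∑ v ∈ Icc 1 u, r v * S s (v - 1) := by
  refine Finset.sum_nbij' (fun v => u + 1 - v) (fun v => u + 1 - v) ?_ ?_ ?_ ?_ ?_
  · intro v hv; simp only [Finset.mem_Icc] at hv ⊢; omega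
  · intro v hv; simp only [Finset.mem_Icc] at hv ⊢; omega
  · intro v hv; simp only [Finset.mem_Icc] at hv; change u + 1 - (u + 1 - v) = v; omega
  · intro v hv; simp only [Finset.mem_Icc] at hv; change u + 1 - (u + 1 - v) = v; omega
  · intro v hv
    change r v * S s (u - v) = r (u + 1 - v) * S s (u + 1 - v - 1)
    rw [rs v hv]
    congr 2
    omega

theorem Phi_neg (lam t : ℝ) : Phi lam (-t) = - Phi lam t := by
  unfold Phi
  rw [neg_div]
  rcases le_total (t / lam) 1 with h1 | h1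
  · rcases le_total (-1) (t / lam) with h2 | h2
    · rw [min_eq_right (by linarith), max_eq_right (by linarith), min_eq_right h1,
        max_eq_right h2]
    · rw [min_eq_left (by linarith), max_eq_right (by linarith), min_eq_right h1,
        max_eq_left h2]
      norm_num
  · rw [min_eq_right (by linarith), max_eq_left (by linarith), min_eq_left h1,
      max_eq_right (by norm_num)]

theorem g1_neg (c u : ℕ) (s r : ℕ → ℝ) (x : ℕ) :
    g1 c u (fun x => - s x) (fun x => - r x) x = - g1 c u s r x := by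
  unfold g1
  simp only [S_neg]
  ring

theorem w1_neg (u : ℕ) (s r : ℕ → ℝ) (x : ℕ) :
    w1 u (fun x => - s x) (fun x => - r x) x = - w1 u s r x := by
  unfold w1
  simp only [S_neg]
  ring

theorem goalCR1 : G_CR1 := by
  intro c u lam s r huc hlam hC
  have s0 := hC.s0
  have r0 := hC.r0
  -- `w` is `w1`
  have hw : ∀ v ∈ Icc 1 u, w c u s r v = w1 u s r v := by
    intro v hv
    simp only [Finset.mem_Icc] at hv
    unfold w w1
    rw [S_ge r0 (by omega : u ≤ v + c), show v - 1 - c = 0 by omega, S_zero]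
    ring
  have hr : ∀ v ∈ Icc 1 u, r v = - Phi lam (w1 u s r v) := by
    intro v hv
    rw [hC.hr v hv, hw v hv]
  have rs : ∀ v ∈ Icc 1 u, r (u + 1 - v) = r v := by
    intro v hv
    have hv' : u + 1 - v ∈ Icc 1 u := by
      simp only [Finset.mem_Icc] at hv ⊢; omega
    rw [hr v hv, hr _ hv']
    congr 2
    simp only [Finset.mem_Icc] at hv
    unfold w1
    rw [show u - (u + 1 - v) = v - 1 by omega, show u + 1 - v - 1 = u - v by omega]
    ring
  have hrefl := S_refl r0 rs
  have hg : ∀ x, g c u s r x = g1 c u s r x := by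
    intro x
    unfold g g1
    rw [hrefl x]
    ring
  have hs : ∀ x ∈ Icc 1 c, s x = - Phi lam (g1 c u s r x) := by
    intro x hx
    rw [hC.hs x hx, hg x]
  -- Euler identity
  have hE : Q c u s r = ∑ x ∈ Icc 1 c, s x * g1 c u s r x + ∑ v ∈ Icc 1 u, r v * w1 u s r v := by
    have e1 : ∑ x ∈ Icc 1 c, s x * g1 c u s r x =
        S s c ^ 2 + ∑ x ∈ Icc 1 c, s x * S s (c - x) +
          2 * ∑ x ∈ Icc 1 c, s x * (S r u - S r x) := by
      have : ∑ x ∈ Icc 1 c, s x * g1 c u s r x =
          ∑ x ∈ Icc 1 c, (s x * S s c + s x * S s (c - x) + 2 * (s x * (S r u - S r x))) :=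
        Finset.sum_congr rfl (fun x _ => by unfold g1; ring)
      rw [this, Finset.sum_add_distrib, Finset.sum_add_distrib, ← Finset.mul_sum,
        ← Finset.sum_mul]
      have h2 : ∑ x ∈ Icc 1 c, s x = S s c := rfl
      rw [h2]
      ring
    have e2 : ∑ v ∈ Icc 1 u, r v * w1 u s r v =
        2 * ∑ x ∈ Icc 1 c, s x * (S r u - S r x) + ∑ v ∈ Icc 1 u, r v * S r u := by
      have : ∑ v ∈ Icc 1 u, r v * w1 u s r v =
          ∑ v ∈ Icc 1 u, (r v * S s (u - v) + r v * S s (v - 1) + r v * S r u) :=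
        Finset.sum_congr rfl (fun x _ => by unfold w1; ring)
      rw [this, Finset.sum_add_distrib, Finset.sum_add_distrib, exchange'' rs,
        exchange' huc r0]
      ring
    have e3 : ∑ v ∈ Icc 1 u, r v * (S r (v + c) - S r (v - 1 - c)) =
        ∑ v ∈ Icc 1 u, r v * S r u := by
      refine Finset.sum_congr rfl (fun v hv => ?_)
      simp only [Finset.mem_Icc] at hv
      rw [S_ge r0 (by omega : u ≤ v + c), show v - 1 - c = 0 by omega, S_zero, sub_zero]
    have e4 : ∑ x ∈ Icc 1 c, s x * (S r (u - x) + S r u - S r x) =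
        2 * ∑ x ∈ Icc 1 c, s x * (S r u - S r x) := by
      rw [Finset.mul_sum]
      refine Finset.sum_congr rfl (fun x _ => ?_)
      rw [hrefl x]
      ring
    unfold Q
    rw [e1, e2, e3, e4]
    ring
  by_cases hneg : S s c ≤ 0
  · exact ⟨s, r, ⟨huc, hlam, s0, r0, rs, hs, hr, hneg⟩, hE⟩
  · refine ⟨fun x => - s x, fun x => - r x, ⟨huc, hlam, ?_, ?_, ?_, ?_, ?_, ?_⟩, ?_⟩
    · intro x hx; simp only [s0 x hx, neg_zero]
    · intro x hx; simp only [r0 x hx, neg_zero]
    · intro v hv; simp only [rs v hv]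
    · intro x hx
      rw [g1_neg, Phi_neg, ← hs x hx]
    · intro v hv
      rw [w1_neg, Phi_neg, ← hr v hv]
    · rw [S_neg]; linarith [not_le.mp hneg]
    · rw [hE]
      congr 1
      · exact Finset.sum_congr rfl (fun x _ => by rw [g1_neg]; ring)
      · exact Finset.sum_congr rfl (fun x _ => by rw [w1_neg]; ring)

end Pool.Agent.Helper91.SCH
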